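import Pool.Agent.PXE.Stmts
import Pool.Agent.Helper12_FV.Res

/-!
# Squad PXE, row PSI: the resultant on the generic line in a direction
-/

set_option autoImplicit false

namespace Pool.Agent.PXE.H63

open Polynomial

section shear

variable {K : Type} [CommRing K]

/-- The extension of `psi` fixing `X`. -/
noncomputable def tau (β : ℕ → K) : (MvPolynomial ℕ K)[X] →+* (MvPolynomial ℕ K)[X] :=
  eval₂RingHom (psi β : MvPolynomial ℕ K →+* _) X

lemma tau_C (β : ℕ → K) (g : MvPolynomial ℕ K) : tau β (C g) = psi β g := by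
  unfold tau
  rw [coe_eval₂RingHom, eval₂_C]
  rfl

lemma tau_X (β : ℕ → K) : tau β X = X := by
  unfold tau
  rw [coe_eval₂RingHom, eval₂_X]

lemma psi_X (β : ℕ → K) (s : ℕ) :
    psi β (MvPolynomial.X s) = C (MvPolynomial.X s) + C (MvPolynomial.C (β s)) * X := by
  unfold psi
  rw [MvPolynomial.aeval_X]

lemma psi_C (β : ℕ → K) (a : K) : psi β (MvPolynomial.C a) = C (MvPolynomial.C a) :=
  (psi β).commutes a

lemma tau_psi (β β' : ℕ → K) (hb : ∀ s, β' s = - β s) (g : MvPolynomial ℕ K) :
    tau β' (psi β g) = C g := by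
  have h : (tau β').comp (psi β : MvPolynomial ℕ K →+* _) =
      (C : MvPolynomial ℕ K →+* _) := by
    apply MvPolynomial.ringHom_ext
    · intro a
      simp only [RingHom.comp_apply, RingHom.coe_coe, psi_C, tau_C]
    · intro s
      simp only [RingHom.comp_apply, RingHom.coe_coe, psi_X, map_add, map_mul, tau_C, tau_X, psi_C]
      rw [hb, map_neg, map_neg]
      ring
  have := RingHom.congr_fun h g
  exact this

lemma tau_tau (β β' : ℕ → K) (hb : ∀ s, β' s = - β s) (P : (MvPolynomial ℕ K)[X]) :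
    tau β' (tau β P) = P := by
  have h : (tau β').comp (tau β) = RingHom.id _ := by
    apply Polynomial.ringHom_ext
    · intro g
      simp only [RingHom.comp_apply, RingHom.id_apply, tau_C]
      rw [tau_psi β β' hb]
    · simp only [RingHom.comp_apply, RingHom.id_apply, tau_X]
  exact RingHom.congr_fun h P

lemma isRelPrime_psi [IsDomain K] (β : ℕ → K) (g g' : MvPolynomial ℕ K) (hg : g ≠ 0)
    (h : IsRelPrime g g') : IsRelPrime (psi β g) (psi β g') := by
  intro d hd hd'
  have hb : ∀ s, (fun s => - β s : ℕ → K) s = - β s := fun s => rfl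
  have hb' : ∀ s, β s = - (fun s => - β s : ℕ → K) s := fun s => (neg_neg (β s)).symm
  have h1 : tau (fun s => - β s) d ∣ C g := by
    have := map_dvd (tau (fun s => - β s)) hd
    rwa [tau_psi β _ hb] at this
  have h2 : tau (fun s => - β s) d ∣ C g' := by
    have := map_dvd (tau (fun s => - β s)) hd'
    rwa [tau_psi β _ hb] at this
  have h3 : (tau (fun s => - β s) d).natDegree = 0 := by
    have := natDegree_le_of_dvd h1 (C_ne_zero.2 hg)
    rw [natDegree_C] at this
    omega
  obtain ⟨c, hc⟩ := natDegree_eq_zero.1 h3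
  rw [← hc] at h1 h2
  have h6 : c ∣ g := by
    have := (C_dvd_iff_dvd_coeff _ _).1 h1 0
    rwa [coeff_C_zero] at this
  have h7 : c ∣ g' := by
    have := (C_dvd_iff_dvd_coeff _ _).1 h2 0
    rwa [coeff_C_zero] at this
  have h4 : IsUnit c := h h6 h7
  have h5 : d = tau β (C c) := by
    rw [hc, tau_tau _ β hb']
  rw [h5]
  exact (isUnit_C.2 h4).map _

lemma psi_ne_zero (β : ℕ → K) (g : MvPolynomial ℕ K) (hg : g ≠ 0) : psi β g ≠ 0 := by
  intro h
  have h1 := tau_psi β (fun s => - β s) (fun s => rfl) g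
  rw [h, map_zero] at h1
  exact hg (C_eq_zero.1 h1.symm)

end shear

/-- PSI -/
theorem psii : PsiStmt := by
  intro K _ β a b ha hab
  have hne : psi β a ≠ 0 := psi_ne_zero β a ha
  have hres : resultant (psi β a) (psi β b) ≠ 0 :=
    Pool.Agent.Helper12_FV.resultant_ne_zero_of_isRelPrime _ _ hne (isRelPrime_psi β a b ha hab)
  refine ⟨hres, ?_⟩
  by_cases h0 : (psi β a).natDegree = 0
  · obtain ⟨c, hc⟩ := natDegree_eq_zero.1 h0
    refine ⟨c, 1, 0, ?_, ?_⟩
    · intro h
      apply hne
      rw [← hc, h, map_zero]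
    · rw [one_mul, zero_mul, add_zero, hc]
  · obtain ⟨p, q, _, _, h⟩ := exists_mul_add_mul_eq_C_resultant (psi β a) (psi β b) le_rfl le_rfl
      (Or.inl h0)
    exact ⟨_, p, q, hres, by rw [mul_comm p, mul_comm q, h]⟩

end Pool.Agent.PXE.H63
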